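import Pool.Agent.H6.G9.Targets
import Pool.Agent.H20.ENM.QMS

/-!
# MP_c59857_nt, theorem (H), row UBB: use of `UB`
-/

set_option autoImplicit false

namespace Pool.Agent.H50.G9

open Finset Pool.Agent.H6.N4D Pool.Agent.H93 Pool.Agent.H93.GS Pool.Agent.H6.GS2 Pool.Agent.H6.G9

lemma sum_dvd_add (q n N : ℕ) :
    (∑ m ∈ Ioc n (n + N), (if q ∣ m then 1 else 0)) + n / q = (n + N) / q := by
  induction N with
  | zero => simp
  | succ N ih =>
    rw [← add_assoc, sum_Ioc_succ_top (by omega), Nat.succ_div, ← ih]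
    omega

/-- the multiples of `q` in a window -/
lemma sum_dvd_le (q n N : ℕ) (hq : 1 ≤ q) :
    ∑ m ∈ Ioc n (n + N), (if q ∣ m then (q : ℝ) else 0) ≤ N + q := by
  have h1 := sum_dvd_add q n N
  set s := ∑ m ∈ Ioc n (n + N), (if q ∣ m then 1 else 0) with hs
  have h2 : ∑ m ∈ Ioc n (n + N), (if q ∣ m then (q : ℝ) else 0) = ((q * s : ℕ) : ℝ) := by
    rw [hs, mul_sum, Nat.cast_sum]
    apply sum_congr rfl
    intro m _
    split_ifs <;> simp
  rw [h2]
  have h3 : q * ((n + N) / q) ≤ n + N := Nat.mul_div_le _ _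
  have h4 : n < q * (n / q + 1) := Nat.lt_mul_div_succ n hq
  have h5 : q * s ≤ N + q := by
    rw [← h1, mul_add] at h3
    rw [mul_add, mul_one] at h4
    omega
  exact_mod_cast h5

lemma abs_D_le (q m : ℕ) : |EB.D q m| ≤ (if q ∣ m then (q : ℝ) else 0) + 1 := by
  unfold EB.D
  have h : (0 : ℝ) ≤ if q ∣ m then (q : ℝ) else 0 := by split_ifs <;> positivity
  rw [abs_le]
  constructor <;> linarith

lemma f_le (g : Ex) (x : ℕ) : ‖g.f x‖ ≤ g.nm := by
  unfold Ex.f Ex.nm
  refine (norm_sum_le _ _).trans (le_of_eq (sum_congr rfl fun i _ => ?_))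
  rw [norm_mul, norm_ee, mul_one]

lemma nm_nonneg (g : Ex) : 0 ≤ g.nm := sum_nonneg fun _ _ => norm_nonneg _

/-- the tests are bounded -/
lemma tx_le (lam : ℕ → ℝ) (hl : ∀ n, |lam n| ≤ 1) (q N n : ℕ) (hq : 1 ≤ q) (hN : q ≤ N)
    (g : Ex) : ‖tx lam q N n g‖ ≤ 3 * g.nm := by
  have hN0 : (0 : ℝ) < N := by exact_mod_cast hq.trans hN
  have hqN : (q : ℝ) ≤ N := by exact_mod_cast hN
  have h1 : ‖tx lam q N n g‖ = ‖∑ m ∈ Ioc n (n + N),
      (EB.D q m : ℂ) * lam m * (starRingEnd ℂ) (g.f m)‖ / N := by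
    unfold tx ac
    have h2 : (Ioc n (n + N)).filter (fun m => 1 ∣ m) = Ioc n (n + N) :=
      filter_true_of_mem fun _ _ => one_dvd _
    rw [h2, Nat.cast_one, mul_one, norm_div, Complex.norm_natCast]
  rw [h1, div_le_iff₀ hN0]
  calc ‖∑ m ∈ Ioc n (n + N), (EB.D q m : ℂ) * lam m * (starRingEnd ℂ) (g.f m)‖
      ≤ ∑ m ∈ Ioc n (n + N), ‖(EB.D q m : ℂ) * lam m * (starRingEnd ℂ) (g.f m)‖ :=
        norm_sum_le _ _
    _ ≤ ∑ m ∈ Ioc n (n + N), ((if q ∣ m then (q : ℝ) else 0) + 1) * g.nm := by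
        refine sum_le_sum fun m _ => ?_
        rw [norm_mul, norm_mul, RCLike.norm_conj, Complex.norm_real, Complex.norm_real,
          Real.norm_eq_abs, Real.norm_eq_abs]
        have h3 := abs_D_le q m
        have h4 := hl m
        have h5 := f_le g m
        calc |EB.D q m| * |lam m| * ‖g.f m‖ ≤ |EB.D q m| * 1 * g.nm := by gcongr
          _ ≤ ((if q ∣ m then (q : ℝ) else 0) + 1) * g.nm := by
              rw [mul_one]
              exact mul_le_mul_of_nonneg_right h3 (nm_nonneg g)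
    _ = (∑ m ∈ Ioc n (n + N), (if q ∣ m then (q : ℝ) else 0) + N) * g.nm := by
        rw [← sum_mul, sum_add_distrib, sum_const, Nat.card_Ioc, nsmul_eq_mul, mul_one]
        congr 3
        omega
    _ ≤ (3 * N) * g.nm := by
        refine mul_le_mul_of_nonneg_right ?_ (nm_nonneg g)
        have := sum_dvd_le q n N hq
        linarith
    _ = 3 * g.nm * N := by ring

lemma ar_nonneg (q N n : ℕ) (F : ℕ → ℝ) (hF : ∀ x, 0 ≤ F x) : 0 ≤ ar q N n F := by
  unfold ar
  have : 0 ≤ ∑ m ∈ (Ioc n (n + N)).filter (fun m => q ∣ m), F m := sum_nonneg fun _ _ => hF _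
  positivity

lemma fam_nm {m J : ℕ} {A : ℝ} {φ : ℕ → ℕ → ℝ} {u : ℕ → ℕ → ℂ} (h : Adm m J A φ u) (q : ℕ) :
    (fam J φ u q).nm ≤ J * A := by
  unfold fam Ex.nm
  refine (sum_le_card_nsmul _ _ A fun i _ => h.cb i q).trans (le_of_eq ?_)
  rw [card_range, nsmul_eq_mul]

lemma tx_congr (lam : ℕ → ℝ) (q N n : ℕ) {g h : Ex} (hgh : ∀ x, g.f x = h.f x) :
    tx lam q N n g = tx lam q N n h := by
  unfold tx
  simp only [hgh]

lemma fv_congr (lam : ℕ → ℝ) (m n J J' : ℕ) {φ φ' : ℕ → ℕ → ℝ} {u u' : ℕ → ℕ → ℂ}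
    (h : ∀ q x, (fam J φ u q).f x = (fam J' φ' u' q).f x) :
    fv lam m n J φ u = fv lam m n J' φ' u' := by
  unfold fv
  refine sum_congr rfl fun q _ => ?_
  rw [tx_congr lam q (2 ^ m) n (h q)]
  simp only [h]

theorem pf_UBB (h0 : T_LF0) : T_UBB := by
  obtain ⟨m₂, hm₂⟩ := h0
  obtain ⟨m₃, hm₃⟩ := Pool.Agent.H20.ENM.pf_QMS
  intro J A hA
  refine ⟨max m₂ m₃, 18 * J * A + 1, by positivity, ?_⟩
  intro lam m n hm hl
  have hm2 : m₂ ≤ m := (le_max_left _ _).trans hm
  have hW := (hm₃ m ((le_max_right _ _).trans hm)).2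
  have hNC : Pool.Agent.H3.BT.NCt m (fun _ => 0) := by
    refine hm₂ m 0 (fun _ => 0) hm2 fun q _ => ?_
    have h1 := nd_le_abs ((0 : ℝ) - 0)
    rw [sub_zero, abs_zero] at h1
    rw [sub_zero]
    exact h1.trans (by positivity)
  -- the families are bounded
  have hb : ∀ (J : ℕ) (A : ℝ) (φ : ℕ → ℕ → ℝ) (u : ℕ → ℕ → ℂ), 0 ≤ A → Adm m J A φ u →
      fv lam m n J φ u ≤ 18 * J * A := by
    intro J A φ u hA h
    unfold fv
    have h1 : ∀ q ∈ EB.QQ m, 1 / (q : ℝ) * (2 * (tx lam q (2 ^ m) n (fam J φ u q)).re -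
        ar 1 (2 ^ m) n (fun x => ‖(fam J φ u q).f x‖ ^ 2)) ≤ 1 / (q : ℝ) * (6 * (J * A)) := by
      intro q hq
      unfold EB.QQ at hq
      rw [mem_filter, mem_Ioc] at hq
      have hq1 : 1 ≤ q := hq.2.one_lt.le
      have hq2 : q ≤ 2 ^ m := hq.1.2.trans (Nat.pow_le_pow_right (by norm_num) (Nat.div_le_self _ _))
      have h2 := tx_le lam hl q (2 ^ m) n hq1 hq2 (fam J φ u q)
      have h3 := fam_nm h q
      have h4 := (Complex.abs_re_le_norm (tx lam q (2 ^ m) n (fam J φ u q)))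
      have h5 := le_abs_self (tx lam q (2 ^ m) n (fam J φ u q)).re
      have h6 := ar_nonneg 1 (2 ^ m) n (fun x => ‖(fam J φ u q).f x‖ ^ 2) fun x => by positivity
      refine mul_le_mul_of_nonneg_left ?_ (by positivity)
      linarith
    refine (sum_le_sum h1).trans ?_
    rw [← sum_mul]
    have h7 : 0 ≤ 6 * (J * A) := by positivity
    calc (∑ q ∈ EB.QQ m, 1 / (q : ℝ)) * (6 * (J * A)) ≤ 3 * (6 * (J * A)) :=
          mul_le_mul_of_nonneg_right hW h7
      _ = 18 * J * A := by ring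
  have hBdd : ∀ (J : ℕ) (A : ℝ), 0 ≤ A →
      BddAbove {x | ∃ (φ : ℕ → ℕ → ℝ) (u : ℕ → ℕ → ℂ), Adm m J A φ u ∧
        x = fv lam m n J φ u} := by
    intro J A hA
    refine ⟨18 * J * A, ?_⟩
    rintro x ⟨φ, u, h, rfl⟩
    exact hb J A φ u hA h
  -- the empty family
  have hz : ∀ (J : ℕ) (A : ℝ), 0 ≤ A → (0 : ℝ) ∈ {x | ∃ (φ : ℕ → ℕ → ℝ) (u : ℕ → ℕ → ℂ),
      Adm m J A φ u ∧ x = fv lam m n J φ u} := by
    intro J A hA
    refine ⟨fun _ _ => 0, fun _ _ => 0, ⟨fun j _ => hNC, fun j q => ?_, fun q _ i _ j _ h => ?_⟩,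
      ?_⟩
    · rw [norm_zero]
      exact hA
    · exact absurd rfl h
    · unfold fv
      symm
      apply sum_eq_zero
      intro q _
      have h1 : ∀ x, (fam J (fun _ _ => 0) (fun _ _ => 0) q).f x = 0 := by
        intro x
        unfold fam Ex.f
        simp
      unfold tx ac ar
      simp only [h1]
      simp
  refine ⟨?_, ?_, ?_, ?_, ?_⟩
  · exact le_csSup (hBdd J A hA) (hz J A hA)
  · refine csSup_le ⟨0, hz J A hA⟩ ?_
    rintro x ⟨φ, u, h, rfl⟩
    have := hb J A φ u hA h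
    linarith
  · intro φ u h
    exact le_csSup (hBdd J A hA) ⟨φ, u, h, rfl⟩
  · intro ε hε
    obtain ⟨x, ⟨φ, u, h, rfl⟩, hx⟩ := exists_lt_of_lt_csSup ⟨0, hz J A hA⟩
      (show UB lam J A m n - ε < sSup {x | ∃ (φ : ℕ → ℕ → ℝ) (u : ℕ → ℕ → ℂ), Adm m J A φ u ∧
        x = fv lam m n J φ u} by
        have : UB lam J A m n - ε < UB lam J A m n := by linarith
        exact this)
    exact ⟨φ, u, h, by linarith⟩
  · intro J' A' hJ hA' hAA
    refine csSup_le_csSup (hBdd J A hA) ⟨0, hz J' A' hA'⟩ ?_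
    rintro x ⟨φ, u, h, rfl⟩
    refine ⟨fun j => if j < J' then φ j else fun _ => 0, fun j q => if j < J' then u j q else 0,
      ⟨?_, ?_, ?_⟩, ?_⟩
    · intro j _
      by_cases hj : j < J'
      · simp only [if_pos hj]
        exact h.nc j hj
      · simp only [if_neg hj]
        exact hNC
    · intro j q
      by_cases hj : j < J'
      · simp only [if_pos hj]
        exact (h.cb j q).trans hAA
      · simp only [if_neg hj]
        rw [norm_zero]
        exact hA
    · intro q hq i _ j _ hui huj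
      have hi : i < J' := by
        by_contra hi
        exact hui (if_neg hi)
      have hj : j < J' := by
        by_contra hj
        exact huj (if_neg hj)
      simp only [if_pos hi, if_pos hj] at hui huj ⊢
      exact h.cl q hq i hi j hj hui huj
    · apply fv_congr
      intro q x
      unfold fam Ex.f
      simp only
      rw [← sum_subset (range_subset_range.2 hJ) (f := fun i =>
        (if i < J' then u i q else 0) * ee ((if i < J' then φ i else fun _ => 0) q * x))]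
      · refine sum_congr rfl fun i hi => ?_
        rw [mem_range] at hi
        simp only [if_pos hi]
      · intro i _ hi
        rw [mem_range] at hi
        simp only [if_neg hi, zero_mul]

end Pool.Agent.H50.G9
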